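import Pool.Agent.W184.Close

set_option autoImplicit false

/-! Averages of convolution inequalities over `[a, a + H]`, for functions of polynomial growth. -/

namespace Pool.Agent.L7h16.ZA

open MeasureTheory Set Pool.Agent.W184

theorem avg_gen {K G Hf ρ : ℝ → ℝ} {a H U B R : ℝ} (hH : 0 ≤ H) (hU : 0 ≤ U) (hB : 0 ≤ B) (hR : 0 ≤ R)
    (hKc : Continuous K) (hK0 : ∀ w, 0 ≤ K w) (hρc : Continuous ρ) (hρ0 : ∀ w, 0 ≤ ρ w)
    (hKi : Integrable fun w => K w * ρ w)
    (hKi0 : Integrable K)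
    (hGc : Continuous G) (hG0 : ∀ x, 0 ≤ G x) (hGB : ∀ t ∈ Icc a (a + H), ∀ w, G (t + w) ≤ B * (R * ρ w))
    (hHc : Continuous Hf) (hHf : ∀ t ∈ Icc a (a + H), Hf t ≤ ∫ w, K w * G (t + w)) :
    ∫ t in a..(a + H), Hf t ≤ (∫ w, K w) * (∫ t in (a - U)..(a + H + U), G t) +
      H * (B * R) * ∫ w in {w : ℝ | U < |w|}, K w * ρ w := by
  have hcont : Continuous fun q : ℝ × ℝ => K q.2 * G (q.1 + q.2) := by fun_prop
  have hbd : ∀ t ∈ Ioc a (a + H), ∀ w, K w * G (t + w) ≤ B * R * (K w * ρ w) := by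
    intro t ht w
    calc K w * G (t + w) ≤ K w * (B * (R * ρ w)) :=
          mul_le_mul_of_nonneg_left (hGB t (Ioc_subset_Icc_self ht) w) (hK0 w)
      _ = _ := by ring
  have hint : Integrable (fun q : ℝ × ℝ => K q.2 * G (q.1 + q.2))
      ((volume.restrict (Ioc a (a + H))).prod volume) := by
    have h1 : Integrable (fun q : ℝ × ℝ => (1:ℝ) * (B * R * (K q.2 * ρ q.2)))
        ((volume.restrict (Ioc a (a + H))).prod volume) :=
      Integrable.mul_prod (integrable_const (1:ℝ)) (hKi.const_mul _)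
    refine h1.mono' hcont.aestronglyMeasurable ?_
    have h2 : ((volume.restrict (Ioc a (a + H))).prod (volume : Measure ℝ)) =
        (volume.prod volume).restrict (Ioc a (a + H) ×ˢ univ) := by
      rw [← Measure.prod_restrict, Measure.restrict_univ]
    rw [h2]
    refine (ae_restrict_mem (measurableSet_Ioc.prod MeasurableSet.univ)).mono fun q hq => ?_
    rw [Real.norm_of_nonneg (mul_nonneg (hK0 _) (hG0 _)), one_mul]
    exact hbd q.1 hq.1 q.2
  have s1 : ∫ t in a..(a + H), Hf t ≤ ∫ t in Ioc a (a + H), ∫ w, K w * G (t + w) := by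
    rw [intervalIntegral.integral_of_le (by linarith)]
    refine setIntegral_mono_on ?_ ?_ measurableSet_Ioc ?_
    · exact (hHc.integrableOn_Icc (a := a) (b := a + H)).mono_set Ioc_subset_Icc_self
    · exact hint.integral_prod_left
    · intro t ht
      exact hHf t (Ioc_subset_Icc_self ht)
  have s2 : ∫ t in Ioc a (a + H), ∫ w, K w * G (t + w) = ∫ w, ∫ t in Ioc a (a + H), K w * G (t + w) :=
    integral_integral_swap hint
  rw [s2] at s1
  refine s1.trans ?_
  have hms : MeasurableSet {w : ℝ | U < |w|} := measurableSet_lt measurable_const measurable_abs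
  set E : ℝ := ∫ t in (a - U)..(a + H + U), G t with hE
  have hE0 : 0 ≤ E := intervalIntegral.integral_nonneg (by linarith) fun x _ => hG0 x
  have hgi : Integrable fun w => K w * E + ({w : ℝ | U < |w|}).indicator
      (fun w => H * (B * R) * (K w * ρ w)) w :=
    (hKi0.mul_const E).add ((hKi.const_mul _).indicator hms)
  have s3 : ∫ w, ∫ t in Ioc a (a + H), K w * G (t + w) ≤ ∫ w, (K w * E + ({w : ℝ | U < |w|}).indicator
      (fun w => H * (B * R) * (K w * ρ w)) w) := by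
    refine integral_mono_of_nonneg (Filter.Eventually.of_forall fun w => ?_) hgi
      (Filter.Eventually.of_forall fun w => ?_)
    · exact integral_nonneg fun t => mul_nonneg (hK0 w) (hG0 _)
    · simp only
      have hcw : Continuous fun t => K w * G (t + w) := by fun_prop
      by_cases hw : U < |w|
      · rw [indicator_of_mem (show w ∈ {w : ℝ | U < |w|} from hw)]
        have h4 : ∫ t in Ioc a (a + H), K w * G (t + w) ≤ ∫ t in Ioc a (a + H), B * R * (K w * ρ w) := by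
          refine setIntegral_mono_on ?_ ?_ measurableSet_Ioc fun t ht => hbd t ht w
          · exact (hcw.integrableOn_Icc (a := a) (b := a + H)).mono_set Ioc_subset_Icc_self
          · exact integrableOn_const (by simp)
        rw [setIntegral_const, Measure.real, Real.volume_Ioc, add_sub_cancel_left,
          ENNReal.toReal_ofReal hH, smul_eq_mul] at h4
        have h5 := mul_nonneg (hK0 w) hE0
        calc ∫ t in Ioc a (a + H), K w * G (t + w) ≤ H * (B * R * (K w * ρ w)) := h4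
          _ = H * (B * R) * (K w * ρ w) := by ring
          _ ≤ _ := by linarith
      · rw [indicator_of_notMem (show w ∉ {w : ℝ | U < |w|} from hw), add_zero, integral_const_mul]
        refine mul_le_mul_of_nonneg_left ?_ (hK0 w)
        push Not at hw
        have hw' := abs_le.mp hw
        rw [← intervalIntegral.integral_of_le (by linarith), intervalIntegral.integral_comp_add_right
          (fun x => G x), hE]
        refine intervalIntegral.integral_mono_interval (by linarith) (by linarith) (by linarith)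
          (Filter.Eventually.of_forall fun x => hG0 x) (hGc.intervalIntegrable _ _)
  refine s3.trans (le_of_eq ?_)
  rw [integral_add (hKi0.mul_const E) ((hKi.const_mul _).indicator hms), integral_mul_const,
    integral_indicator hms, integral_const_mul]

/-- the kernel -/
noncomputable def KK (k : ℕ) (Δ w : ℝ) : ℝ := KP Δ w * (1 + w ^ 2) ^ (-((32:ℕ) * (k:ℝ)))

/-- the growth function -/
noncomputable def rho (k : ℕ) (w : ℝ) : ℝ := (1 + |w|) ^ k

lemma pw_eq (k : ℕ) (w : ℝ) : (1 + w ^ 2) ^ (-((32:ℕ) * (k:ℝ))) = ((1 + w ^ 2)⁻¹) ^ (32 * k) := by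
  have h0 : 0 < 1 + w ^ 2 := by positivity
  rw [Real.rpow_neg h0.le, inv_pow]
  congr 1
  rw [show ((32:ℕ) * (k:ℝ) : ℝ) = ((32 * k : ℕ) : ℝ) by push_cast; ring]
  exact Real.rpow_natCast _ _

lemma KK_cont (k : ℕ) {Δ : ℝ} (h : 0 < Δ) : Continuous (KK k Δ) := by
  unfold KK
  refine (KP_cont h).mul ?_
  refine Continuous.rpow_const (by fun_prop) fun w => Or.inl ?_
  positivity

lemma KK_nonneg (k : ℕ) {Δ : ℝ} (h : 0 < Δ) (w : ℝ) : 0 ≤ KK k Δ w :=
  mul_nonneg (KP_nonneg h w) (by positivity)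

lemma inv_bd (w : ℝ) : 0 < (1 + w ^ 2)⁻¹ ∧ (1 + w ^ 2)⁻¹ ≤ 1 := by
  have h0 : 0 < 1 + w ^ 2 := by positivity
  refine ⟨by positivity, ?_⟩
  rw [inv_le_one_iff₀]; right; nlinarith [sq_nonneg w]

lemma KK_le_KP (k : ℕ) {Δ : ℝ} (h : 0 < Δ) (w : ℝ) : KK k Δ w ≤ KP Δ w := by
  unfold KK
  rw [pw_eq]
  exact mul_le_of_le_one_right (KP_nonneg h w) (pow_le_one₀ (inv_bd w).1.le (inv_bd w).2)

lemma KK_int (k : ℕ) {Δ : ℝ} (h : 0 < Δ) : Integrable (KK k Δ) ∧ ∫ w, KK k Δ w ≤ 1 := by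
  obtain ⟨j1, j2⟩ := KP_int h
  have i1 : Integrable (KK k Δ) := by
    refine j1.mono' (KK_cont k h).aestronglyMeasurable (Filter.Eventually.of_forall fun w => ?_)
    rw [Real.norm_of_nonneg (KK_nonneg k h w)]
    exact KK_le_KP k h w
  exact ⟨i1, (integral_mono i1 j1 fun w => KK_le_KP k h w).trans j2.le⟩

lemma KK_rho (k : ℕ) (hk : 1 ≤ k) {Δ : ℝ} (h : 0 < Δ) (w : ℝ) :
    KK k Δ w * rho k w ≤ (1 / Δ) * 2 ^ k * ((1 + w ^ 2)⁻¹) ^ (31 * k) := by
  have h0 : 0 < 1 + w ^ 2 := by positivity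
  unfold KK rho
  rw [pw_eq]
  have h1 : (1 + |w|) ^ k ≤ (2 * (1 + w ^ 2)) ^ k :=
    pow_le_pow_left₀ (by positivity) (one_add_abs_le w) k
  have h2 : ((1 + w ^ 2)⁻¹) ^ (32 * k) * (1 + w ^ 2) ^ k = ((1 + w ^ 2)⁻¹) ^ (31 * k) := by
    rw [show 32 * k = 31 * k + k by ring, pow_add, mul_assoc, ← mul_pow, inv_mul_cancel₀ h0.ne',
      one_pow, mul_one]
  calc KP Δ w * ((1 + w ^ 2)⁻¹) ^ (32 * k) * (1 + |w|) ^ k ≤
      (1 / Δ) * ((1 + w ^ 2)⁻¹) ^ (32 * k) * (2 * (1 + w ^ 2)) ^ k := by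
        gcongr
        exact KP_le h w
    _ = (1 / Δ) * 2 ^ k * (((1 + w ^ 2)⁻¹) ^ (32 * k) * (1 + w ^ 2) ^ k) := by
        rw [mul_pow]; ring
    _ = _ := by rw [h2]

lemma KK_rho_int (k : ℕ) (hk : 1 ≤ k) {Δ : ℝ} (h : 0 < Δ) :
    Integrable fun w => KK k Δ w * rho k w := by
  have hi := integrable_inv_one_add_sq
  refine (hi.const_mul ((1 / Δ) * 2 ^ k)).mono' ?_ (Filter.Eventually.of_forall fun w => ?_)
  · exact ((KK_cont k h).mul (by unfold rho; fun_prop)).aestronglyMeasurable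
  · have h2 : 0 ≤ rho k w := by unfold rho; positivity
    rw [Real.norm_of_nonneg (mul_nonneg (KK_nonneg k h w) h2)]
    refine (KK_rho k hk h w).trans (mul_le_mul_of_nonneg_left ?_ (by positivity))
    calc ((1 + w ^ 2)⁻¹) ^ (31 * k) ≤ ((1 + w ^ 2)⁻¹) ^ 1 :=
          pow_le_pow_of_le_one (inv_bd w).1.le (inv_bd w).2 (by omega)
      _ = _ := pow_one _

lemma KK_tail (k : ℕ) (hk : 1 ≤ k) {Δ U : ℝ} (h : 0 < Δ) (hU : 1 ≤ U) :
    ∫ w in {w : ℝ | U < |w|}, KK k Δ w * rho k w ≤ (1 / Δ) * 2 ^ k * Real.pi * (U⁻¹) ^ (60 * k) := by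
  have hi := integrable_inv_one_add_sq
  have hms : MeasurableSet {w : ℝ | U < |w|} := measurableSet_lt measurable_const measurable_abs
  have hU0 : 0 < U := by linarith
  have b1 : ∫ w in {w : ℝ | U < |w|}, KK k Δ w * rho k w ≤
      ∫ w in {w : ℝ | U < |w|}, (1 / Δ) * 2 ^ k * (U⁻¹) ^ (60 * k) * (1 + w ^ 2)⁻¹ := by
    refine setIntegral_mono_on (KK_rho_int k hk h).integrableOn (hi.const_mul _).integrableOn hms
      fun w hw => ?_
    have hw' : U < |w| := hw
    have hw0 : 0 < |w| := by linarith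
    have h0 : 0 < 1 + w ^ 2 := by positivity
    have h4 : (1 + w ^ 2)⁻¹ ≤ (U⁻¹) ^ 2 := by
      rw [inv_pow]
      refine inv_anti₀ (by positivity) ?_
      have : U ^ 2 ≤ |w| ^ 2 := pow_le_pow_left₀ hU0.le hw'.le 2
      rw [sq_abs] at this
      linarith
    refine (KK_rho k hk h w).trans ?_
    have h5 : ((1 + w ^ 2)⁻¹) ^ (31 * k) ≤ (U⁻¹) ^ (60 * k) * (1 + w ^ 2)⁻¹ := by
      calc ((1 + w ^ 2)⁻¹) ^ (31 * k) ≤ ((1 + w ^ 2)⁻¹) ^ (30 * k + 1) :=
            pow_le_pow_of_le_one (inv_bd w).1.le (inv_bd w).2 (by omega)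
        _ = ((1 + w ^ 2)⁻¹) ^ (30 * k) * (1 + w ^ 2)⁻¹ := by rw [pow_succ]
        _ ≤ ((U⁻¹) ^ 2) ^ (30 * k) * (1 + w ^ 2)⁻¹ := by
            refine mul_le_mul_of_nonneg_right ?_ (inv_bd w).1.le
            exact pow_le_pow_left₀ (inv_bd w).1.le h4 _
        _ = _ := by rw [← pow_mul]; congr 2; ring
    calc (1 / Δ) * 2 ^ k * ((1 + w ^ 2)⁻¹) ^ (31 * k) ≤
        (1 / Δ) * 2 ^ k * ((U⁻¹) ^ (60 * k) * (1 + w ^ 2)⁻¹) :=
          mul_le_mul_of_nonneg_left h5 (by positivity)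
      _ = _ := by ring
  refine b1.trans ?_
  rw [integral_const_mul]
  have b2 : ∫ w in {w : ℝ | U < |w|}, (1 + w ^ 2)⁻¹ ≤ Real.pi := by
    rw [← integral_univ_inv_one_add_sq]
    refine setIntegral_le_integral hi (Filter.Eventually.of_forall fun w => ?_)
    exact (inv_bd w).1.le
  have b3 : 0 ≤ (1 / Δ) * 2 ^ k * (U⁻¹) ^ (60 * k) := by positivity
  calc (1 / Δ) * 2 ^ k * (U⁻¹) ^ (60 * k) * ∫ w in {w : ℝ | U < |w|}, (1 + w ^ 2)⁻¹ ≤
      (1 / Δ) * 2 ^ k * (U⁻¹) ^ (60 * k) * Real.pi := mul_le_mul_of_nonneg_left b2 b3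
    _ = _ := by ring

end Pool.Agent.L7h16.ZA
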