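import Pool.Agent.L7h16.ZA.Half

set_option autoImplicit false

/-! Bound for the mean of `|ζ - P²|^k` to the right of the critical line. -/

namespace Pool.Agent.L7h16.ZA

open MeasureTheory Set Filter Topology Pool.Agent.H306R2 Pool.Agent.W184
open Pool.Agent.R313.FM (Adm pow_le_H big_log)

lemma add_pow_le2 (k : ℕ) {x y : ℝ} (hx : 0 ≤ x) (hy : 0 ≤ y) : (x + y) ^ k ≤ 2 ^ k * (x ^ k + y ^ k) := by
  rcases le_total x y with h | h
  · calc (x + y) ^ k ≤ (2 * y) ^ k := pow_le_pow_left₀ (by positivity) (by linarith) k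
      _ = 2 ^ k * y ^ k := mul_pow _ _ _
      _ ≤ _ := by
        refine mul_le_mul_of_nonneg_left ?_ (by positivity)
        have := pow_nonneg hx k
        linarith
  · calc (x + y) ^ k ≤ (2 * x) ^ k := pow_le_pow_left₀ (by positivity) (by linarith) k
      _ = 2 ^ k * x ^ k := mul_pow _ _ _
      _ ≤ _ := by
        refine mul_le_mul_of_nonneg_left ?_ (by positivity)
        have := pow_nonneg hy k
        linarith

lemma Gk_le (k N : ℕ) (σ t : ℝ) : Gk k N σ t ≤ 2 ^ k * (zn σ t ^ k + Pp k N σ t) := by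
  unfold Gk Pp zn
  refine (pow_le_pow_left₀ (norm_nonneg _) (norm_sub_le _ _) k).trans ?_
  rw [norm_pow]
  exact add_pow_le2 k (norm_nonneg _) (by positivity)

lemma small_err (k : ℕ) (hk : 1 ≤ k) {N : ℕ} {T Δ : ℝ} (hT : 52 ≤ T) (hN : (N:ℝ) ≤ T)
    (hΔ : 0 < Δ) (hΔ1 : 1 / Δ ≤ T) :
    ((12 + (N:ℝ) ^ 2) ^ k * (1 + T) ^ k) * ((1 / Δ) * 2 ^ k * Real.pi * ((T ^ ((1:ℝ) / 4))⁻¹) ^ (60 * k)) ≤ 4 := by
  have hT0 : 0 < T := by linarith
  have h1 : (12 + (N:ℝ) ^ 2) ≤ 13 * T ^ 2 := by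
    have : (N:ℝ) ^ 2 ≤ T ^ 2 := pow_le_pow_left₀ (by positivity) hN 2
    nlinarith
  have h2 : 1 + T ≤ 2 * T := by linarith
  have hU : (T ^ ((1:ℝ) / 4)) ^ 4 = T := by
    rw [← Real.rpow_natCast, ← Real.rpow_mul hT0.le]; norm_num
  have h3 : ((T ^ ((1:ℝ) / 4))⁻¹) ^ (60 * k) = ((T ^ 15)⁻¹) ^ k := by
    rw [show 60 * k = 4 * (15 * k) by ring, pow_mul, inv_pow, hU, pow_mul, inv_pow]
  rw [h3]
  have hpi : Real.pi ≤ 4 := Real.pi_le_four
  have h5 : (13 * T ^ 2) * (2 * T) * 2 * (T ^ 15)⁻¹ ≤ T⁻¹ := by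
    rw [← div_eq_mul_inv, div_le_iff₀ (by positivity)]
    have : T⁻¹ * T ^ 15 = T ^ 14 := by field_simp
    rw [this]
    have h6 : (13 * T ^ 2) * (2 * T) * 2 = 52 * T ^ 3 := by ring
    rw [h6]
    calc 52 * T ^ 3 ≤ T * T ^ 3 := by gcongr
      _ = T ^ 4 := by ring
      _ ≤ T ^ 14 := pow_le_pow_right₀ (by linarith) (by norm_num)
  calc ((12 + (N:ℝ) ^ 2) ^ k * (1 + T) ^ k) * ((1 / Δ) * 2 ^ k * Real.pi * ((T ^ 15)⁻¹) ^ k) ≤
      ((13 * T ^ 2) ^ k * (2 * T) ^ k) * (T * 2 ^ k * 4 * ((T ^ 15)⁻¹) ^ k) := by gcongr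
    _ = 4 * (T * ((13 * T ^ 2) * (2 * T) * 2 * (T ^ 15)⁻¹) ^ k) := by
        rw [mul_pow (13 * T ^ 2 * (2 * T) * 2), mul_pow (13 * T ^ 2 * (2 * T)), mul_pow (13 * T ^ 2)]
        generalize (13 * T ^ 2) ^ k = u
        generalize (2 * T) ^ k = v
        ring
    _ ≤ 4 * (T * (T⁻¹) ^ k) := by gcongr
    _ ≤ 4 * (T * (T⁻¹) ^ 1) := by
        refine mul_le_mul_of_nonneg_left ?_ (by norm_num)
        refine mul_le_mul_of_nonneg_left ?_ hT0.le
        refine pow_le_pow_of_le_one (by positivity) ?_ hk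
        rw [inv_le_one_iff₀]; right; linarith
    _ = 4 := by rw [pow_one, mul_inv_cancel₀ hT0.ne', mul_one]

theorem D_bound (k : ℕ) (hk : 1 ≤ k) {α β : ℝ} (hα : 0 ≤ α) (hαβ : α < β) (hUB : UB k β) :
    ∃ C : ℝ, 0 ≤ C ∧ ∀ᶠ T : ℝ in atTop, ∀ δ : ℝ, 1 ≤ δ → δ ≤ Real.log T / 16 → ∀ a H : ℝ, Adm α T a H →
      ∫ t in a..(a + H), Gk k (NK k T) (1 / 2 + δ / Real.log T) t ≤
        C * Real.exp (-(δ / 16)) * (H * Real.log T ^ ((k * kh) ^ 2)) := by
  have hκ : 0 < (k:ℝ) * kh := by unfold kh; positivity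
  set κ2 : ℝ := ((k:ℝ) * kh) ^ 2 with hκ2
  have hκ20 : 0 < κ2 := by positivity
  have hA := aF_pos hκ
  set A := aF (k * kh) with hAdef
  obtain ⟨C0, hC0⟩ := hUB
  refine ⟨4 ^ k * (2 ^ k * (6 * |C0| * 2 ^ κ2 + (6 * Real.exp 1 * A + 6)) + 4), by positivity, ?_⟩
  have t2 : Tendsto (fun T : ℝ => 2 * T) atTop atTop := tendsto_id.const_mul_atTop two_pos
  have hF := (FF_tendsto hκ).comp Real.tendsto_log_atTop
  have e4 : ∀ᶠ T : ℝ in atTop, FF (k * kh) (1 / Real.log T) / Real.log T ^ κ2 < 2 * A :=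
    hF.eventually_lt_const (show aF (k * kh) < 2 * A by rw [← hAdef]; linarith)
  have hC0' : ∀ᶠ T : ℝ in atTop, ∀ a H : ℝ, Adm β T a H →
    ∫ t in a..(a + H), zn (1 / 2) t ^ k ≤ C0 * (H * Real.log T ^ κ2) := hC0
  have e5 : ∀ᶠ T : ℝ in atTop, 2 ≤ Real.log T ^ (β - α) :=
    ((tendsto_rpow_atTop (by linarith)).comp Real.tendsto_log_atTop).eventually_ge_atTop 2
  filter_upwards [t2.eventually hC0', e4, e5, big_log, eventually_ge_atTop 52,
    Real.tendsto_log_atTop.eventually_ge_atTop (1024 * (k:ℝ)), pow_le_H α]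
    with T h1 h2 h3 h4 h5 h6 h7 δ hδ hδT a H hAdm
  have hT1 : 1 < T := h4.1
  have hT0 : 0 < T := by linarith
  have hL : 1 < Real.log T := h4.2
  have hL0 : 0 < Real.log T := by linarith
  obtain ⟨hHT, hH1⟩ := h7 a H hAdm
  obtain ⟨ha, hH, haT, hTH⟩ := hAdm
  have hLκ : 0 < Real.log T ^ κ2 := by positivity
  have hLκ1 : 1 ≤ Real.log T ^ κ2 := Real.one_le_rpow hL.le hκ20.le
  set N := NK k T with hN
  obtain ⟨hN1, -⟩ := NK_half k hk hT1.le
  have hNk := NK_pow k hk hT1.le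
  have hN1' : (1:ℝ) ≤ N := by exact_mod_cast hN1
  have hNk1 : (1:ℝ) ≤ (N:ℝ) ^ k := one_le_pow₀ hN1'
  have hT8 : T ^ ((1:ℝ) / 8) ≤ T := by
    calc T ^ ((1:ℝ) / 8) ≤ T ^ (1:ℝ) := Real.rpow_le_rpow_of_exponent_le hT1.le (by norm_num)
      _ = T := Real.rpow_one T
  have hNT : (N:ℝ) ≤ T := by
    calc (N:ℝ) = (N:ℝ) ^ 1 := (pow_one _).symm
      _ ≤ (N:ℝ) ^ k := pow_le_pow_right₀ hN1' hk
      _ ≤ T := hNk.trans hT8
  set U : ℝ := T ^ ((1:ℝ) / 4) with hU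
  have hU1 : 1 ≤ U := Real.one_le_rpow hT1.le (by norm_num)
  have hUH : U ≤ H := by
    refine le_trans ?_ hHT
    exact Real.rpow_le_rpow_of_exponent_le hT1.le (by norm_num)
  have hUT : U ≤ T := by linarith
  set Δ := δ / Real.log T with hΔ
  have hΔ0 : 0 < Δ := by positivity
  have hΔ1 : Δ ≤ 1 / 16 := by
    rw [hΔ, div_le_iff₀ hL0]; linarith
  have hΔi : 1 / Δ ≤ T := by
    rw [hΔ, one_div_div, div_le_iff₀ (by linarith)]
    have := Real.log_le_sub_one_of_pos hT0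
    nlinarith
  -- the inequality
  have hmain := half_win k hk hN1 hΔ0 hΔ1 ha hH.le haT hU1
  have hfac := fac_ge k hk hT1 h6 (by linarith) hδT
  rw [← hN, ← hΔ] at hfac
  have hint0 : 0 ≤ ∫ t in a..(a + H), Gk k N (1 / 2 + Δ) t :=
    intervalIntegral.integral_nonneg (by linarith) fun x _ => Gk_nonneg k N _ x
  have hmain2 := (mul_le_mul_of_nonneg_right hfac hint0).trans hmain
  -- error term
  have herr := small_err k hk (N := N) h5 hNT hΔ0 hΔi
  have herr2 : H * ((12 + (N:ℝ) ^ 2) ^ k * (1 + T) ^ k) *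
      ((1 / Δ) * 2 ^ k * Real.pi * (U⁻¹) ^ (60 * k)) ≤ 4 * (H * Real.log T ^ κ2) := by
    rw [mul_assoc]
    calc H * (((12 + (N:ℝ) ^ 2) ^ k * (1 + T) ^ k) *
      ((1 / Δ) * 2 ^ k * Real.pi * (U⁻¹) ^ (60 * k))) ≤ H * 4 := mul_le_mul_of_nonneg_left herr hH.le
      _ = 4 * (H * 1) := by ring
      _ ≤ 4 * (H * Real.log T ^ κ2) := by gcongr
  -- the base line
  have cz : Continuous fun t : ℝ => zn (1 / 2) t ^ k := (zn_cont (by norm_num)).pow k
  have cp := Pp_cont k N (1 / 2)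
  have cg := Gk_cont k N (σ := 1 / 2) (by norm_num)
  have hb1 : ∫ t in (a - U)..(a + H + U), Gk k N (1 / 2) t ≤
      2 ^ k * ((∫ t in (a - U)..(a + H + U), zn (1 / 2) t ^ k) +
        ∫ t in (a - U)..(a + H + U), Pp k N (1 / 2) t) := by
    rw [← intervalIntegral.integral_add (cz.intervalIntegrable _ _) (cp.intervalIntegrable _ _),
      ← intervalIntegral.integral_const_mul]
    exact intervalIntegral.integral_mono_on (by linarith) (cg.intervalIntegrable _ _)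
      ((continuous_const.mul (cz.add cp)).intervalIntegrable _ _) fun t _ => Gk_le k N _ t
  -- zeta
  have hb2 : ∫ t in (a - U)..(a + H + U), zn (1 / 2) t ^ k ≤
      6 * |C0| * 2 ^ κ2 * (H * Real.log T ^ κ2) := by
    have g1 := zedge k ha hH.le (show 0 ≤ U by linarith)
    set a' := max (a - U) 0 with ha'
    have ha'0 : 0 ≤ a' := le_max_right _ _
    have ha'a : a' ≤ a := max_le (by linarith) ha
    have ha'2 : a - U ≤ a' := le_max_left _ _
    set H' := a + H + U - a' with hH'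
    have hH'H : H ≤ H' := by linarith
    have hH'3 : H' ≤ 3 * H := by linarith
    have hlog2 : Real.log T ≤ Real.log (2 * T) := Real.log_le_log hT0 (by linarith)
    have hlog2' : Real.log (2 * T) ≤ 2 * Real.log T := by
      rw [Real.log_mul (by norm_num) hT0.ne']
      have : Real.log 2 ≤ Real.log T := Real.log_le_log (by norm_num) (by linarith)
      linarith
    have hadm : Adm β (2 * T) a' H' := by
      refine ⟨ha'0, by linarith, by linarith, ?_⟩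
      have q1 : 2 * Real.log T ^ α ≤ Real.log (2 * T) ^ β := by
        calc 2 * Real.log T ^ α ≤ Real.log T ^ (β - α) * Real.log T ^ α := by gcongr
          _ = Real.log T ^ β := by rw [← Real.rpow_add hL0]; congr 1; ring
          _ ≤ Real.log (2 * T) ^ β := Real.rpow_le_rpow hL0.le hlog2 (by linarith)
      calc 2 * T ≤ 2 * (H * Real.log T ^ α) := by linarith
        _ = H * (2 * Real.log T ^ α) := by ring
        _ ≤ H' * Real.log (2 * T) ^ β := by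
          refine mul_le_mul hH'H q1 ?_ (by linarith)
          have := Real.rpow_nonneg hL0.le α
          positivity
    have g2 := h1 a' H' hadm
    have e1 : a' + H' = a + H + U := by rw [hH']; ring
    rw [e1] at g2
    refine g1.trans ?_
    have g3 : C0 * (H' * Real.log (2 * T) ^ κ2) ≤ |C0| * (3 * H * (2 ^ κ2 * Real.log T ^ κ2)) := by
      have q2 : Real.log (2 * T) ^ κ2 ≤ 2 ^ κ2 * Real.log T ^ κ2 := by
        rw [← Real.mul_rpow (by norm_num) hL0.le]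
        exact Real.rpow_le_rpow (by linarith) hlog2' hκ20.le
      have q3 : 0 ≤ Real.log (2 * T) ^ κ2 := Real.rpow_nonneg (by linarith) _
      have q4 : 0 ≤ H' * Real.log (2 * T) ^ κ2 := mul_nonneg (by linarith) q3
      calc C0 * (H' * Real.log (2 * T) ^ κ2) ≤ |C0| * (H' * Real.log (2 * T) ^ κ2) :=
            mul_le_mul_of_nonneg_right (le_abs_self _) q4
        _ ≤ _ := by
          refine mul_le_mul_of_nonneg_left ?_ (abs_nonneg _)
          exact mul_le_mul hH'3 q2 q3 (by linarith)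
    calc 2 * ∫ t in a'..(a + H + U), zn (1 / 2) t ^ k ≤ 2 * (|C0| * (3 * H * (2 ^ κ2 * Real.log T ^ κ2))) := by
          linarith
      _ = _ := by ring
  -- P
  have hb3 : ∫ t in (a - U)..(a + H + U), Pp k N (1 / 2) t ≤
      (6 * Real.exp 1 * A + 6) * (H * Real.log T ^ κ2) := by
    have g1 := (abs_le.mp (mv k hN1 (σ := 1 / 2) le_rfl (a - U) (a + H + U))).2
    have g2 := WW_base k hk N hL0 (by rw [Real.exp_log hT0]; exact hNk.trans hT8)
    rw [div_lt_iff₀ hLκ] at h2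
    have g3 : WW k N (1 / 2) ≤ Real.exp 1 * (2 * A * Real.log T ^ κ2) :=
      g2.trans (mul_le_mul_of_nonneg_left h2.le (Real.exp_pos _).le)
    have g4 : ((N:ℝ) ^ k) ^ 4 ≤ H := by
      calc ((N:ℝ) ^ k) ^ 4 ≤ (T ^ ((1:ℝ) / 8)) ^ 4 := pow_le_pow_left₀ (by positivity) hNk 4
        _ = T ^ ((1:ℝ) / 2) := by
            rw [← Real.rpow_natCast, ← Real.rpow_mul hT0.le]; norm_num
        _ ≤ T ^ ((7:ℝ) / 8) := Real.rpow_le_rpow_of_exponent_le hT1.le (by norm_num)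
        _ ≤ H := hHT
    have g5 : (a + H + U - (a - U)) * WW k N (1 / 2) ≤ 3 * H * (Real.exp 1 * (2 * A * Real.log T ^ κ2)) :=
      mul_le_mul (by linarith) g3 (WW_nonneg k N _) (by linarith)
    have g6 : H ≤ H * Real.log T ^ κ2 := le_mul_of_one_le_right hH.le hLκ1
    calc ∫ t in (a - U)..(a + H + U), Pp k N (1 / 2) t ≤
        (a + H + U - (a - U)) * WW k N (1 / 2) + 6 * ((N:ℝ) ^ k) ^ 4 := by linarith
      _ ≤ 3 * H * (Real.exp 1 * (2 * A * Real.log T ^ κ2)) + 6 * (H * Real.log T ^ κ2) := by linarith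
      _ = _ := by ring
  set M := H * Real.log T ^ κ2 with hM
  have hM0 : 0 < M := by positivity
  have hb4 : (4⁻¹) ^ k * Real.exp (δ / 16) * ∫ t in a..(a + H), Gk k N (1 / 2 + Δ) t ≤
      (2 ^ k * (6 * |C0| * 2 ^ κ2 + (6 * Real.exp 1 * A + 6)) + 4) * M := by
    refine hmain2.trans ?_
    have q1 : 2 ^ k * ((∫ t in (a - U)..(a + H + U), zn (1 / 2) t ^ k) +
        ∫ t in (a - U)..(a + H + U), Pp k N (1 / 2) t) ≤
        2 ^ k * (6 * |C0| * 2 ^ κ2 * M + (6 * Real.exp 1 * A + 6) * M) :=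
      mul_le_mul_of_nonneg_left (add_le_add hb2 hb3) (by positivity)
    calc _ ≤ 2 ^ k * (6 * |C0| * 2 ^ κ2 * M + (6 * Real.exp 1 * A + 6) * M) + 4 * M :=
          add_le_add (hb1.trans q1) herr2
      _ = _ := by ring
  have e9 : ∫ t in a..(a + H), Gk k N (1 / 2 + Δ) t = (4 ^ k * Real.exp (-(δ / 16))) *
      ((4⁻¹) ^ k * Real.exp (δ / 16) * ∫ t in a..(a + H), Gk k N (1 / 2 + Δ) t) := by
    have u1 : (4:ℝ) ^ k * (4⁻¹) ^ k = 1 := by rw [← mul_pow]; norm_num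
    have u2 : Real.exp (-(δ / 16)) * Real.exp (δ / 16) = 1 := by rw [← Real.exp_add]; simp
    calc ∫ t in a..(a + H), Gk k N (1 / 2 + Δ) t = ((4:ℝ) ^ k * (4⁻¹) ^ k) *
        (Real.exp (-(δ / 16)) * Real.exp (δ / 16)) * ∫ t in a..(a + H), Gk k N (1 / 2 + Δ) t := by
          rw [u1, u2]; ring
      _ = _ := by ring
  rw [e9]
  calc (4 ^ k * Real.exp (-(δ / 16))) *
      ((4⁻¹) ^ k * Real.exp (δ / 16) * ∫ t in a..(a + H), Gk k N (1 / 2 + Δ) t) ≤
      (4 ^ k * Real.exp (-(δ / 16))) * ((2 ^ k * (6 * |C0| * 2 ^ κ2 + (6 * Real.exp 1 * A + 6)) + 4) * M) :=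
        mul_le_mul_of_nonneg_left hb4 (by positivity)
    _ = _ := by ring

end Pool.Agent.L7h16.ZA
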