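import Pool.Agent.W184.Kar
import Pool.Agent.L7h16.ZA.Avg

set_option autoImplicit false

/-! The Dirichlet polynomial `P ^ k`, `P` the truncation of `ζ ^ (1/2)`: coefficients and mean values. -/

namespace Pool.Agent.L7h16.ZA

open MeasureTheory Finset Filter Topology Pool.Agent.H306R2 Pool.Agent.W184

/-- `1/2` -/
noncomputable abbrev kh : ℝ := 1 / ((2:ℕ):ℝ)

/-- `∑ d_κ(n)^2 n^{-1-s}` -/
noncomputable def FF (κ s : ℝ) : ℝ := ∑' n : ℕ, dv κ n ^ 2 / n * (n:ℝ) ^ (-s)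

lemma wt1 (κ s : ℝ) (b : Fin 1 → ℕ) : wt (∑ i : Fin 1, (fun _ => κ) i) (fun _ : Fin 1 => κ) b *
    ∏ i : Fin 1, (b i : ℝ) ^ (-s) = dv κ (b 0) ^ 2 / (b 0) * ((b 0 : ℕ) : ℝ) ^ (-s) := by
  unfold wt
  simp only [univ_unique, Fin.default_eq_zero, Fin.isValue, prod_singleton, sum_singleton]
  ring

lemma FF_summable {κ s : ℝ} (hκ : 0 < κ) (hs : 0 < s) :
    Summable fun n : ℕ => dv κ n ^ 2 / n * (n:ℝ) ^ (-s) := by
  have h := wt_summable (fun _ : Fin 1 => κ) (fun _ => hκ) (by norm_num) (fun _ => s) (fun _ => hs)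
  simp only [wt1] at h
  exact ((Equiv.funUnique (Fin 1) ℕ).summable_iff (f := fun n : ℕ => dv κ n ^ 2 / n * (n:ℝ) ^ (-s))).mp h

lemma FF_tendsto {κ : ℝ} (hκ : 0 < κ) :
    Tendsto (fun L : ℝ => FF κ (1 / L) / L ^ (κ ^ 2)) atTop (𝓝 (aF κ)) := by
  have h := wt_tendsto (fun _ : Fin 1 => κ) (fun _ => hκ) (by norm_num) (fun _ => (1:ℝ)) (fun _ => one_pos)
  simp only [wt1] at h
  have e2 : ∀ L : ℝ, (∑' b : Fin 1 → ℕ, dv κ (b 0) ^ 2 / (b 0) * ((b 0 : ℕ) : ℝ) ^ (-(1 / L))) =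
      FF κ (1 / L) := by
    intro L
    exact (Equiv.funUnique (Fin 1) ℕ).tsum_eq (fun n : ℕ => dv κ n ^ 2 / n * (n:ℝ) ^ (-(1 / L)))
  simp only [e2] at h
  simpa using h

lemma FF_nonneg (κ s : ℝ) : 0 ≤ FF κ s := tsum_nonneg fun n => by positivity

/-- the coefficients of `P ^ k` -/
noncomputable def fk (k N : ℕ) : ArithmeticFunction ℝ := tr (dA kh) (N:ℝ) ^ k

lemma kh_nonneg : (0:ℝ) ≤ kh := by unfold kh; positivity

lemma fk_nonneg (k N n : ℕ) : 0 ≤ fk k N n := tr_pow_nonneg kh_nonneg _ k n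

lemma fk_le (k N n : ℕ) : fk k N n ≤ dv (k * kh) n := tr_pow_le kh_nonneg _ k n

lemma fk_eq (k N n : ℕ) (h : n ≤ N) : fk k N n = dv (k * kh) n := by
  unfold fk
  rw [tr_pow_eq _ _ _ n (by exact_mod_cast h), dA_pow, dA_apply]

lemma Dp_tr (N : ℕ) (s : ℂ) : Dp (tr (dA kh) (N:ℝ)) N s = DS (dv kh) N s := by
  rw [DS_eq_Dp]
  unfold Dp
  refine sum_congr rfl fun n hn => ?_
  rw [mem_Icc, Nat.floor_natCast] at hn
  rw [tr_apply, if_pos (by exact_mod_cast hn.2), dA_apply]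

lemma fk_pow (k : ℕ) {N : ℕ} (hN : 1 ≤ N) (s : ℂ) :
    (∀ n : ℕ, N ^ k < n → fk k N n = 0) ∧ DS (fk k N) (N ^ k) s = DS (dv kh) N s ^ k := by
  obtain ⟨h1, h2⟩ := Dp_pow (tr (dA kh) (N:ℝ)) N (by exact_mod_cast hN)
    (fun n hn => tr_supp _ _ _ hn) s k
  refine ⟨fun n hn => h1 n (by exact_mod_cast hn), ?_⟩
  rw [DS_eq_Dp, ← Dp_tr, ← h2]
  push_cast
  rfl

lemma dvh_le_one (n : ℕ) : dv kh n ≤ 1 := dv_le_one kh_nonneg (by unfold kh; norm_num) n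

lemma P_le (N : ℕ) {s : ℂ} (hs : 0 ≤ s.re) : ‖DS (dv kh) N s‖ ≤ N :=
  DS_norm_le (fun n => dv_nonneg kh_nonneg n) dvh_le_one N hs

lemma fk_bd (k : ℕ) {N : ℕ} (hN : 1 ≤ N) (n : ℕ) : fk k N n ≤ ((N ^ k : ℕ) : ℝ) := by
  rcases Nat.eq_zero_or_pos n with rfl | hn
  · simp
  rcases lt_or_ge (N ^ k) n with h | h
  · rw [(fk_pow k hN 0).1 n h]
    positivity
  · have h1 : fk k N n ≤ ∑ m ∈ Icc 1 (N ^ k), fk k N m :=
      single_le_sum (f := fun m => fk k N m) (fun m _ => fk_nonneg k N m) (by rw [mem_Icc]; exact ⟨hn, h⟩)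
    have h2 : (((∑ m ∈ Icc 1 (N ^ k), fk k N m : ℝ)) : ℂ) = DS (fk k N) (N ^ k) 0 := by
      unfold DS
      push_cast
      refine sum_congr rfl fun m _ => ?_
      rw [neg_zero, Complex.cpow_zero, mul_one]
    have h3 : ‖DS (fk k N) (N ^ k) 0‖ = ∑ m ∈ Icc 1 (N ^ k), fk k N m := by
      rw [← h2, Complex.norm_real, Real.norm_of_nonneg (sum_nonneg fun m _ => fk_nonneg k N m)]
    rw [(fk_pow k hN 0).2, norm_pow] at h3
    rw [← h3] at h1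
    refine h1.trans ?_
    push_cast
    exact pow_le_pow_left₀ (norm_nonneg _) (P_le N (by simp)) k

/-- the mean value -/
noncomputable def WW (k N : ℕ) (σ : ℝ) : ℝ := ∑ n ∈ Icc 1 (N ^ k), fk k N n ^ 2 * (n : ℝ) ^ (-(2 * σ))

/-- `|P|^{2k}` -/
noncomputable def Pp (k N : ℕ) (σ t : ℝ) : ℝ := (‖DS (dv kh) N ((σ : ℂ) + t * Complex.I)‖ ^ 2) ^ k

lemma Pp_cont (k N : ℕ) (σ : ℝ) : Continuous (Pp k N σ) := by
  unfold Pp
  have := (DS_differentiable (dv kh) N).continuous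
  fun_prop

lemma Pp_nonneg (k N : ℕ) (σ t : ℝ) : 0 ≤ Pp k N σ t := by unfold Pp; positivity

theorem mv (k : ℕ) {N : ℕ} (hN : 1 ≤ N) {σ : ℝ} (hσ : 1 / 2 ≤ σ) (A B : ℝ) :
    |(∫ t in A..B, Pp k N σ t) - (B - A) * WW k N σ| ≤ 6 * ((N:ℝ) ^ k) ^ 4 := by
  have hM1 : (1:ℝ) ≤ ((N ^ k : ℕ) : ℝ) := by exact_mod_cast Nat.one_le_pow _ _ hN
  set M : ℝ := ((N ^ k : ℕ) : ℝ) with hM
  have hM0 : 0 < M := by linarith
  have h := mv_DS (g := fun n => fk k N n / M) (fun n => div_nonneg (fk_nonneg k N n) hM0.le)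
    (fun n => by rw [div_le_one hM0]; exact fk_bd k hN n) hσ (N ^ k) A B
  have e1 : ∀ t : ℝ, ‖DS (fun n => fk k N n / M) (N ^ k) ((σ : ℂ) + t * Complex.I)‖ ^ 2 =
      (M⁻¹) ^ 2 * Pp k N σ t := by
    intro t
    have h2 : DS (fun n => fk k N n / M) (N ^ k) ((σ : ℂ) + t * Complex.I) =
        ((M⁻¹ : ℝ) : ℂ) * DS (fk k N) (N ^ k) ((σ : ℂ) + t * Complex.I) := by
      unfold DS
      rw [mul_sum]
      refine sum_congr rfl fun n _ => ?_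
      push_cast
      rw [div_eq_mul_inv]
      ring
    rw [h2, (fk_pow k hN _).2, norm_mul, Complex.norm_real, Real.norm_of_nonneg (by positivity), norm_pow]
    unfold Pp
    ring
  have e2 : ∑ n ∈ Icc 1 (N ^ k), (fk k N n / M) ^ 2 * (n : ℝ) ^ (-(2 * σ)) = (M⁻¹) ^ 2 * WW k N σ := by
    unfold WW
    rw [mul_sum]
    refine sum_congr rfl fun n _ => ?_
    rw [div_eq_mul_inv]; ring
  simp_rw [e1] at h
  rw [intervalIntegral.integral_const_mul] at h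
  simp only [e2] at h
  have e3 : (M⁻¹) ^ 2 * (∫ t in A..B, Pp k N σ t) - (B - A) * ((M⁻¹) ^ 2 * WW k N σ) =
      (M⁻¹) ^ 2 * ((∫ t in A..B, Pp k N σ t) - (B - A) * WW k N σ) := by ring
  rw [e3, abs_mul, abs_of_nonneg (by positivity : (0:ℝ) ≤ (M⁻¹) ^ 2)] at h
  have hlog : 1 + Real.log M ≤ M := by
    have := Real.log_le_sub_one_of_pos hM0
    linarith
  have h4 : (M⁻¹) ^ 2 * |(∫ t in A..B, Pp k N σ t) - (B - A) * WW k N σ| ≤ 6 * M * M := by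
    refine h.trans ?_
    have : 0 ≤ 6 * M := by positivity
    exact mul_le_mul_of_nonneg_left hlog this
  have h5 : |(∫ t in A..B, Pp k N σ t) - (B - A) * WW k N σ| = M ^ 2 *
      ((M⁻¹) ^ 2 * |(∫ t in A..B, Pp k N σ t) - (B - A) * WW k N σ|) := by
    field_simp
  rw [h5]
  have hMk : (N:ℝ) ^ k = M := by rw [hM]; push_cast; rfl
  rw [hMk]
  calc M ^ 2 * ((M⁻¹) ^ 2 * |(∫ t in A..B, Pp k N σ t) - (B - A) * WW k N σ|) ≤ M ^ 2 * (6 * M * M) :=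
        mul_le_mul_of_nonneg_left h4 (by positivity)
    _ = 6 * M ^ 4 := by ring

lemma term_eq (c : ℝ) {n : ℕ} (hn : 1 ≤ n) (Δ : ℝ) :
    c * (n : ℝ) ^ (-(2 * (1 / 2 + Δ))) = c / n * (n:ℝ) ^ (-(2 * Δ)) := by
  have hn0 : (0:ℝ) < n := by exact_mod_cast hn
  rw [show -(2 * (1 / 2 + Δ)) = (-1) + (-(2 * Δ)) by ring, Real.rpow_add hn0, Real.rpow_neg_one]
  ring

lemma WW_nonneg (k N : ℕ) (σ : ℝ) : 0 ≤ WW k N σ :=
  sum_nonneg fun n _ => mul_nonneg (sq_nonneg _) (by positivity)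

lemma fk_sq_le (k N n : ℕ) : fk k N n ^ 2 ≤ dv (k * kh) n ^ 2 :=
  pow_le_pow_left₀ (fk_nonneg k N n) (fk_le k N n) 2

lemma WW_le (k : ℕ) (hk : 1 ≤ k) (N : ℕ) {Δ : ℝ} (hΔ : 0 < Δ) : WW k N (1 / 2 + Δ) ≤ FF (k * kh) (2 * Δ) := by
  have hκ : 0 < (k:ℝ) * kh := by unfold kh; positivity
  unfold WW
  calc ∑ n ∈ Icc 1 (N ^ k), fk k N n ^ 2 * (n : ℝ) ^ (-(2 * (1 / 2 + Δ))) ≤
      ∑ n ∈ Icc 1 (N ^ k), dv (k * kh) n ^ 2 / n * (n:ℝ) ^ (-(2 * Δ)) := by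
        refine sum_le_sum fun n hn => ?_
        rw [mem_Icc] at hn
        rw [term_eq _ hn.1]
        have := fk_sq_le k N n
        gcongr
    _ ≤ FF (k * kh) (2 * Δ) :=
        (FF_summable hκ (by positivity)).sum_le_tsum _ fun n _ => by positivity

lemma WW_ge (k : ℕ) (hk : 1 ≤ k) {N : ℕ} (hN : 1 ≤ N) {Δ : ℝ} (hΔ : 0 < Δ) :
    FF (k * kh) (2 * Δ) - (N:ℝ) ^ (-Δ) * FF (k * kh) Δ ≤ WW k N (1 / 2 + Δ) := by
  have hκ : 0 < (k:ℝ) * kh := by unfold kh; positivity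
  have hN0 : (0:ℝ) < N := by exact_mod_cast hN
  have hN1 : (1:ℝ) ≤ N := by exact_mod_cast hN
  have hNk : N ≤ N ^ k := Nat.le_self_pow (by omega) N
  set g : ℕ → ℝ := fun n => dv (k * kh) n ^ 2 / n * (n:ℝ) ^ (-(2 * Δ)) with hg
  set h : ℕ → ℝ := fun n => dv (k * kh) n ^ 2 / n * (n:ℝ) ^ (-Δ) with hh
  have hg0 : ∀ n, 0 ≤ g n := fun n => by simp only [hg]; positivity
  have hh0 : ∀ n, 0 ≤ h n := fun n => by simp only [hh]; positivity
  have s1 := FF_summable hκ (show 0 < 2 * Δ by positivity)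
  have s2 := FF_summable hκ hΔ
  have hpt : ∀ n : ℕ, g n ≤ (if n ∈ Icc 1 N then g n else 0) + (N:ℝ) ^ (-Δ) * h n := by
    intro n
    split_ifs with hn
    · have := mul_nonneg (show (0:ℝ) ≤ (N:ℝ) ^ (-Δ) by positivity) (hh0 n)
      linarith
    · rw [zero_add]
      rcases Nat.eq_zero_or_pos n with rfl | hn0
      · simp only [hg, hh]; simp
      · have hNn : N < n := by
          rw [mem_Icc, not_and_or] at hn
          omega
        have hn1 : (0:ℝ) < n := by exact_mod_cast hn0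
        have e1 : (n:ℝ) ^ (-(2 * Δ)) = (n:ℝ) ^ (-Δ) * (n:ℝ) ^ (-Δ) := by
          rw [← Real.rpow_add hn1]; congr 1; ring
        have e2 : (n:ℝ) ^ (-Δ) ≤ (N:ℝ) ^ (-Δ) :=
          Real.rpow_le_rpow_of_nonpos hN0 (by exact_mod_cast hNn.le) (by linarith)
        simp only [hg, hh]
        rw [e1]
        have h3 : 0 ≤ dv (k * kh) n ^ 2 / n * (n:ℝ) ^ (-Δ) := by positivity
        calc dv (k * kh) n ^ 2 / n * ((n:ℝ) ^ (-Δ) * (n:ℝ) ^ (-Δ)) =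
            (n:ℝ) ^ (-Δ) * (dv (k * kh) n ^ 2 / n * (n:ℝ) ^ (-Δ)) := by ring
          _ ≤ _ := mul_le_mul_of_nonneg_right e2 h3
  have hs3 : Summable fun n : ℕ => (if n ∈ Icc 1 N then g n else 0) :=
    summable_of_ne_finset_zero (s := Icc 1 N) fun n hn => by rw [if_neg hn]
  have h1 : FF (k * kh) (2 * Δ) ≤ ∑' n : ℕ, ((if n ∈ Icc 1 N then g n else 0) + (N:ℝ) ^ (-Δ) * h n) :=
    Summable.tsum_le_tsum hpt s1 (hs3.add (s2.mul_left _))
  rw [Summable.tsum_add hs3 (s2.mul_left _), tsum_mul_left] at h1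
  have h2 : ∑' n : ℕ, (if n ∈ Icc 1 N then g n else 0) = ∑ n ∈ Icc 1 N, g n := by
    rw [tsum_eq_sum (s := Icc 1 N) fun n hn => by rw [if_neg hn]]
    exact sum_congr rfl fun n hn => by rw [if_pos hn]
  have h3 : ∑ n ∈ Icc 1 N, g n ≤ WW k N (1 / 2 + Δ) := by
    unfold WW
    calc ∑ n ∈ Icc 1 N, g n = ∑ n ∈ Icc 1 N, fk k N n ^ 2 * (n : ℝ) ^ (-(2 * (1 / 2 + Δ))) := by
          refine sum_congr rfl fun n hn => ?_
          rw [mem_Icc] at hn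
          rw [term_eq _ hn.1, fk_eq k N n hn.2]
      _ ≤ _ := sum_le_sum_of_subset_of_nonneg (Icc_subset_Icc_right hNk)
          fun n _ _ => mul_nonneg (sq_nonneg _) (by positivity)
  rw [h2] at h1
  have h4 : (N:ℝ) ^ (-Δ) * ∑' n : ℕ, h n = (N:ℝ) ^ (-Δ) * FF (k * kh) Δ := rfl
  rw [h4] at h1
  exact sub_le_iff_le_add.2 (h1.trans (add_le_add h3 le_rfl))

lemma WW_base (k : ℕ) (hk : 1 ≤ k) (N : ℕ) {L : ℝ} (hL : 0 < L) (hN : ((N:ℝ)) ^ k ≤ Real.exp L) :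
    WW k N (1 / 2) ≤ Real.exp 1 * FF (k * kh) (1 / L) := by
  have hκ : 0 < (k:ℝ) * kh := by unfold kh; positivity
  unfold WW
  calc ∑ n ∈ Icc 1 (N ^ k), fk k N n ^ 2 * (n : ℝ) ^ (-(2 * (1 / 2 : ℝ))) ≤
      ∑ n ∈ Icc 1 (N ^ k), Real.exp 1 * (dv (k * kh) n ^ 2 / n * (n:ℝ) ^ (-(1 / L))) := by
        refine sum_le_sum fun n hn => ?_
        rw [mem_Icc] at hn
        have hn0 : (0:ℝ) < n := by exact_mod_cast hn.1
        have h1 := term_eq (fk k N n ^ 2) hn.1 0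
        rw [add_zero, mul_zero, neg_zero, Real.rpow_zero, mul_one] at h1
        rw [h1]
        have h2 := fk_sq_le k N n
        have h3 : Real.log n ≤ L := by
          rw [Real.log_le_iff_le_exp hn0]
          refine le_trans ?_ hN
          exact_mod_cast hn.2
        have h4 : 1 ≤ Real.exp 1 * (n:ℝ) ^ (-(1 / L)) := by
          rw [Real.rpow_def_of_pos hn0, ← Real.exp_add]
          refine Real.one_le_exp ?_
          have : Real.log n / L ≤ 1 := by rw [div_le_one hL]; exact h3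
          have e : 1 + Real.log n * -(1 / L) = 1 - Real.log n / L := by ring
          rw [e]; linarith
        have h5 : 0 ≤ dv (k * kh) n ^ 2 / n := by positivity
        calc fk k N n ^ 2 / n ≤ dv (k * kh) n ^ 2 / n * 1 := by rw [mul_one]; gcongr
          _ ≤ dv (k * kh) n ^ 2 / n * (Real.exp 1 * (n:ℝ) ^ (-(1 / L))) := mul_le_mul_of_nonneg_left h4 h5
          _ = _ := by ring
    _ ≤ Real.exp 1 * FF (k * kh) (1 / L) := by
        rw [← mul_sum]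
        refine mul_le_mul_of_nonneg_left ?_ (Real.exp_pos _).le
        exact (FF_summable hκ (by positivity)).sum_le_tsum _ fun n _ => by positivity

end Pool.Agent.L7h16.ZA
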