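import Pool.Agent.L7h16.ZA.FF
import Pool.Agent.R313.FM.Ev

set_option autoImplicit false

/-! The half-plane inequality for `|ζ - P²|^k`. -/

namespace Pool.Agent.L7h16.ZA

open MeasureTheory Set Filter Topology Pool.Agent.H306R2 Pool.Agent.W184
open Pool.Agent.R313.FM (Adm pow_le_H big_log)

/-- `|ζ - P²|^k` -/
noncomputable def Gk (k N : ℕ) (σ t : ℝ) : ℝ :=
  ‖riemannZeta ((σ : ℂ) + t * Complex.I) - DS (dv kh) N ((σ : ℂ) + t * Complex.I) ^ 2‖ ^ k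

lemma Gk_nonneg (k N : ℕ) (σ t : ℝ) : 0 ≤ Gk k N σ t := by unfold Gk; positivity

lemma zeta_line_cont {σ : ℝ} (hσ : σ < 1) :
    Continuous fun t : ℝ => riemannZeta ((σ : ℂ) + t * Complex.I) := by
  rw [continuous_iff_continuousAt]
  intro t
  have h : DifferentiableAt ℂ riemannZeta ((σ : ℂ) + t * Complex.I) := zeta_diffAt (by simpa using hσ)
  have h2 : ContinuousAt (fun t : ℝ => (σ : ℂ) + t * Complex.I) t := by fun_prop
  exact ContinuousAt.comp (g := riemannZeta) h.continuousAt h2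

lemma Gk_cont (k N : ℕ) {σ : ℝ} (hσ : σ < 1) : Continuous (Gk k N σ) := by
  unfold Gk
  have h1 := zeta_line_cont hσ
  have h2 := (DS_differentiable (dv kh) N).continuous
  have h3 : Continuous fun t : ℝ => DS (dv kh) N ((σ : ℂ) + t * Complex.I) := h2.comp (by fun_prop)
  exact ((h1.sub (h3.pow 2)).norm).pow k

lemma half_k (k : ℕ) (hk : 1 ≤ k) {N : ℕ} (hN : 1 ≤ N) {Δ t : ℝ} (h0 : 0 < Δ) (h1 : Δ ≤ 1 / 8) :
    ((1 - 8 * Δ) * (N:ℝ) ^ Δ / (1 + Δ) ^ (2 * 32)) ^ k * Gk k N (1 / 2 + Δ) t ≤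
    ∫ w : ℝ, KK k Δ w * Gk k N (1 / 2) (t + w) := by
  have hk0 : (0:ℝ) < k := by exact_mod_cast hk
  have h := half_pt (Q := fun z => DS (dv kh) N z ^ 2) (N := (N:ℝ)) (C1 := (N:ℝ) ^ 2)
    (C2 := (N:ℝ) ^ 2 * ∑' n : ℕ, 1 / (n : ℝ) ^ 2) (p := (k:ℝ)) (Δ := Δ) (t := t) (M := 32) hk0
    (by exact_mod_cast hN) (by norm_num) ((DS_differentiable _ _).pow 2) (fun z hz _ => by
      rw [norm_pow]
      exact pow_le_pow_left₀ (norm_nonneg _) (P_le N (by linarith)) 2)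
    (fun z hz => zeta_sub_pow_le (v := 2) (by norm_num) hN hz) h0 h1
  simp only [Real.rpow_natCast] at h
  unfold Gk KK
  exact h

lemma Gk_bd (k : ℕ) {N : ℕ} {T a H : ℝ} (ha : 0 ≤ a) (haT : a + H ≤ T) :
    ∀ t ∈ Icc a (a + H), ∀ w, Gk k N (1 / 2) (t + w) ≤ (12 + (N:ℝ) ^ 2) ^ k * ((1 + T) ^ k * rho k w) := by
  intro t ht w
  unfold Gk rho
  rw [← mul_pow, ← mul_pow]
  refine pow_le_pow_left₀ (norm_nonneg _) ?_ k
  have h1 := norm_sub_le (riemannZeta (((1 / 2 : ℝ) : ℂ) + ((t + w : ℝ) : ℂ) * Complex.I))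
    (DS (dv kh) N (((1 / 2 : ℝ) : ℂ) + ((t + w : ℝ) : ℂ) * Complex.I) ^ 2)
  have h2 := zn_le' (σ := 1 / 2) (t := t + w) (by norm_num) (by norm_num)
  unfold zn at h2
  have h3 : ‖DS (dv kh) N (((1 / 2 : ℝ) : ℂ) + ((t + w : ℝ) : ℂ) * Complex.I) ^ 2‖ ≤ (N:ℝ) ^ 2 := by
    rw [norm_pow]
    exact pow_le_pow_left₀ (norm_nonneg _) (P_le N (by simp)) 2
  have h4 : |t + w| ≤ T + |w| := by
    have := abs_add_le t w
    rw [abs_of_nonneg (ha.trans ht.1)] at this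
    linarith [ht.2]
  have hT : 0 ≤ T := by linarith [ht.1, ht.2]
  have h5 : 1 + |t + w| ≤ (1 + T) * (1 + |w|) := by nlinarith [abs_nonneg w, mul_nonneg hT (abs_nonneg w)]
  have h6 : 1 ≤ (1 + T) * (1 + |w|) := by nlinarith [abs_nonneg w, mul_nonneg hT (abs_nonneg w)]
  have h7 : 0 ≤ (N:ℝ) ^ 2 := by positivity
  nlinarith

/-- the integrated inequality -/
lemma half_win (k : ℕ) (hk : 1 ≤ k) {N : ℕ} (hN : 1 ≤ N) {Δ a H T U : ℝ} (h0 : 0 < Δ) (h1 : Δ ≤ 1 / 16)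
    (ha : 0 ≤ a) (hH : 0 ≤ H) (haT : a + H ≤ T) (hU : 1 ≤ U) :
    ((1 - 8 * Δ) * (N:ℝ) ^ Δ / (1 + Δ) ^ (2 * 32)) ^ k * ∫ t in a..(a + H), Gk k N (1 / 2 + Δ) t ≤
    (∫ t in (a - U)..(a + H + U), Gk k N (1 / 2) t) +
      H * ((12 + (N:ℝ) ^ 2) ^ k * (1 + T) ^ k) * ((1 / Δ) * 2 ^ k * Real.pi * (U⁻¹) ^ (60 * k)) := by
  have hT : 0 ≤ T := by linarith
  obtain ⟨i1, i2⟩ := KK_int k h0
  have h := avg_gen (K := KK k Δ) (G := Gk k N (1 / 2))
    (Hf := fun t => ((1 - 8 * Δ) * (N:ℝ) ^ Δ / (1 + Δ) ^ (2 * 32)) ^ k * Gk k N (1 / 2 + Δ) t)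
    (ρ := rho k) (a := a) (H := H) (U := U) (B := (12 + (N:ℝ) ^ 2) ^ k) (R := (1 + T) ^ k) hH
    (by linarith) (by positivity) (by positivity) (KK_cont k h0) (KK_nonneg k h0)
    (by unfold rho; fun_prop) (fun w => by unfold rho; positivity) (KK_rho_int k hk h0) i1
    (Gk_cont k N (by norm_num)) (Gk_nonneg k N _) (Gk_bd k ha haT)
    (continuous_const.mul (Gk_cont k N (by linarith)))
    (fun t _ => half_k k hk hN h0 (by linarith))
  rw [intervalIntegral.integral_const_mul] at h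
  refine h.trans (add_le_add ?_ ?_)
  · refine mul_le_of_le_one_left ?_ i2
    exact intervalIntegral.integral_nonneg (by linarith) fun x _ => Gk_nonneg k N _ x
  · exact mul_le_mul_of_nonneg_left (KK_tail k hk h0 hU) (by positivity)

/-- reflection of the part of the window on the negative axis -/
lemma zedge (k : ℕ) {a H U : ℝ} (ha : 0 ≤ a) (hH : 0 ≤ H) (hU : 0 ≤ U) :
    ∫ t in (a - U)..(a + H + U), zn (1 / 2) t ^ k ≤
      2 * ∫ t in (max (a - U) 0)..(a + H + U), zn (1 / 2) t ^ k := by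
  have hc : Continuous fun t : ℝ => zn (1 / 2) t ^ k := (zn_cont (by norm_num)).pow k
  have hn : ∀ t : ℝ, 0 ≤ zn (1 / 2) t ^ k := fun t => pow_nonneg (zn_nonneg _ _) k
  rcases le_total 0 (a - U) with h | h
  · rw [max_eq_left h]
    have : 0 ≤ ∫ t in (a - U)..(a + H + U), zn (1 / 2) t ^ k :=
      intervalIntegral.integral_nonneg (by linarith) fun x _ => hn x
    linarith
  · rw [max_eq_right h]
    have h1 := intervalIntegral.integral_add_adjacent_intervals (hc.intervalIntegrable (a - U) 0)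
      (hc.intervalIntegrable 0 (a + H + U)) (μ := volume)
    have h2 : ∫ t in (a - U)..0, zn (1 / 2) t ^ k = ∫ t in (0:ℝ)..(U - a), zn (1 / 2) t ^ k := by
      have h3 := intervalIntegral.integral_comp_neg (a := (0:ℝ)) (b := U - a)
        (fun t => zn (1 / 2) t ^ k)
      rw [neg_zero, neg_sub] at h3
      rw [← h3]
      refine intervalIntegral.integral_congr fun t _ => ?_
      simp only [zn_neg]
    have h4 : ∫ t in (0:ℝ)..(U - a), zn (1 / 2) t ^ k ≤ ∫ t in (0:ℝ)..(a + H + U), zn (1 / 2) t ^ k :=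
      intervalIntegral.integral_mono_interval le_rfl (by linarith) (by linarith)
        (Filter.Eventually.of_forall fun x => hn x) (hc.intervalIntegrable _ _)
    linarith

/-- upper bounds of the right order in windows -/
def UB (k : ℕ) (β : ℝ) : Prop := ∃ C : ℝ, ∀ᶠ T : ℝ in atTop, ∀ a H : ℝ, Adm β T a H →
  ∫ t in a..(a + H), zn (1 / 2) t ^ k ≤ C * (H * Real.log T ^ ((k * kh) ^ 2))

/-- the length of `P` -/
noncomputable def NK (k : ℕ) (T : ℝ) : ℕ := ⌊T ^ (1 / (8 * (k:ℝ)))⌋₊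

lemma NK_pow (k : ℕ) (hk : 1 ≤ k) {T : ℝ} (hT : 1 ≤ T) : ((NK k T : ℝ)) ^ k ≤ T ^ ((1:ℝ) / 8) := by
  have hT0 : 0 < T := by linarith
  have hk0 : (0:ℝ) < k := by exact_mod_cast hk
  have h1 : (NK k T : ℝ) ≤ T ^ (1 / (8 * (k:ℝ))) := Nat.floor_le (by positivity)
  calc ((NK k T : ℝ)) ^ k ≤ (T ^ (1 / (8 * (k:ℝ)))) ^ k := pow_le_pow_left₀ (by positivity) h1 k
    _ = T ^ ((1:ℝ) / 8) := by
        rw [← Real.rpow_natCast, ← Real.rpow_mul hT0.le]
        congr 1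
        field_simp

lemma NK_half (k : ℕ) (hk : 1 ≤ k) {T : ℝ} (hT : 1 ≤ T) :
    1 ≤ NK k T ∧ T ^ (1 / (8 * (k:ℝ))) / 2 ≤ NK k T := by
  have hk0 : (0:ℝ) < k := by exact_mod_cast hk
  have h1 : 1 ≤ T ^ (1 / (8 * (k:ℝ))) := Real.one_le_rpow hT (by positivity)
  have h2 : 1 ≤ NK k T := by
    unfold NK
    exact Nat.le_floor (by simpa using h1)
  refine ⟨h2, ?_⟩
  have h3 := Nat.lt_floor_add_one (T ^ (1 / (8 * (k:ℝ))))
  have h4 : (1:ℝ) ≤ NK k T := by exact_mod_cast h2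
  unfold NK at h4 ⊢
  linarith

lemma NK_rpow (k : ℕ) (hk : 1 ≤ k) {T : ℝ} (hT : 1 < T) {δ : ℝ} (hδ : 0 < δ) (hδT : δ ≤ Real.log T) :
    Real.exp (δ / (8 * k)) / 2 ≤ (NK k T : ℝ) ^ (δ / Real.log T) := by
  have hL := Real.log_pos hT
  have hk0 : (0:ℝ) < k := by exact_mod_cast hk
  have hT0 : 0 < T := by linarith
  obtain ⟨-, h2⟩ := NK_half k hk hT.le
  have hΔ : 0 < δ / Real.log T := by positivity
  have hΔ1 : δ / Real.log T ≤ 1 := by rw [div_le_one hL]; exact hδT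
  calc Real.exp (δ / (8 * k)) / 2 = (T ^ (1 / (8 * (k:ℝ)))) ^ (δ / Real.log T) * 2⁻¹ := by
        rw [← Real.rpow_mul hT0.le, Real.rpow_def_of_pos hT0, div_eq_mul_inv]
        congr 2
        field_simp
    _ ≤ (T ^ (1 / (8 * (k:ℝ)))) ^ (δ / Real.log T) * (2⁻¹) ^ (δ / Real.log T) := by
        refine mul_le_mul_of_nonneg_left ?_ (by positivity)
        calc (2⁻¹ : ℝ) = (2⁻¹ : ℝ) ^ (1:ℝ) := by rw [Real.rpow_one]
          _ ≤ (2⁻¹) ^ (δ / Real.log T) :=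
            Real.rpow_le_rpow_of_exponent_ge (by norm_num) (by norm_num) hΔ1
    _ = (T ^ (1 / (8 * (k:ℝ))) / 2) ^ (δ / Real.log T) := by
        rw [← Real.mul_rpow (by positivity) (by norm_num), ← div_eq_mul_inv]
    _ ≤ _ := Real.rpow_le_rpow (by positivity) h2 hΔ.le

lemma fac_ge (k : ℕ) (hk : 1 ≤ k) {T : ℝ} (hT : 1 < T) (hT2 : 1024 * (k:ℝ) ≤ Real.log T) {δ : ℝ}
    (hδ : 0 < δ) (hδT : δ ≤ Real.log T / 16) :
    (4⁻¹) ^ k * Real.exp (δ / 16) ≤
      ((1 - 8 * (δ / Real.log T)) * (NK k T : ℝ) ^ (δ / Real.log T) / (1 + δ / Real.log T) ^ (2 * 32)) ^ k := by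
  have hL := Real.log_pos hT
  have hk0 : (0:ℝ) < k := by exact_mod_cast hk
  have hΔ : 0 < δ / Real.log T := by positivity
  have hΔ1 : δ / Real.log T ≤ 1 / 16 := by
    rw [div_le_iff₀ hL]; linarith
  have h1 := NK_rpow k hk hT hδ (by linarith)
  have h2 : (1 + δ / Real.log T) ^ (2 * 32) ≤ Real.exp (δ / (16 * k)) := by
    have h3 : 1 + δ / Real.log T ≤ Real.exp (δ / Real.log T) := by
      have := Real.add_one_le_exp (δ / Real.log T)
      linarith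
    calc (1 + δ / Real.log T) ^ (2 * 32) ≤ (Real.exp (δ / Real.log T)) ^ (2 * 32) :=
          pow_le_pow_left₀ (by positivity) h3 _
      _ = Real.exp (64 * (δ / Real.log T)) := by
          rw [← Real.exp_nat_mul]; norm_num
      _ ≤ Real.exp (δ / (16 * k)) := by
          rw [Real.exp_le_exp]
          rw [show 64 * (δ / Real.log T) = (64 * δ) / Real.log T by ring, div_le_div_iff₀ hL (by positivity)]
          nlinarith
  have h4 : 4⁻¹ * Real.exp (δ / (16 * k)) ≤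
      (1 - 8 * (δ / Real.log T)) * (NK k T : ℝ) ^ (δ / Real.log T) / (1 + δ / Real.log T) ^ (2 * 32) := by
    have h5 : 0 < (1 + δ / Real.log T) ^ (2 * 32) := by positivity
    rw [le_div_iff₀ h5]
    have e1 : Real.exp (δ / (8 * k)) = Real.exp (δ / (16 * k)) * Real.exp (δ / (16 * k)) := by
      rw [← Real.exp_add]; congr 1; field_simp; ring
    have h6 : 4⁻¹ * Real.exp (δ / (16 * k)) * (1 + δ / Real.log T) ^ (2 * 32) ≤
        4⁻¹ * Real.exp (δ / (16 * k)) * Real.exp (δ / (16 * k)) :=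
      mul_le_mul_of_nonneg_left h2 (by positivity)
    refine h6.trans ?_
    have h7 : 4⁻¹ * Real.exp (δ / (16 * k)) * Real.exp (δ / (16 * k)) =
        (1 / 2) * (Real.exp (δ / (8 * k)) / 2) := by rw [e1]; ring
    rw [h7]
    exact mul_le_mul (by linarith) h1 (by positivity) (by linarith)
  calc (4⁻¹) ^ k * Real.exp (δ / 16) = (4⁻¹ * Real.exp (δ / (16 * k))) ^ k := by
        rw [mul_pow, ← Real.exp_nat_mul]
        congr 2
        field_simp
    _ ≤ _ := pow_le_pow_left₀ (by positivity) h4 k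

end Pool.Agent.L7h16.ZA
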