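import Pool.Agent.L7h16.ZA.DB

set_option autoImplicit false

/-! The asymptotic formula at the distance `δ / log T` from the critical line. -/

namespace Pool.Agent.L7h16.ZA

open MeasureTheory Set Filter Topology Pool.Agent.H306R2 Pool.Agent.W184
open Pool.Agent.R313.FM (Adm pow_le_H big_log)

lemma pow_exp {p r x : ℝ} (hp : 0 < p) (hr : 0 < r) (hx : 0 ≤ x) : x ^ p ≤ (p / r) ^ p * Real.exp (r * x) := by
  have h1 : x * r / p ≤ Real.exp (x * r / p) := by
    have := Real.add_one_le_exp (x * r / p)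
    linarith
  have h2 : (x * r / p) ^ p ≤ Real.exp (r * x) := by
    calc (x * r / p) ^ p ≤ (Real.exp (x * r / p)) ^ p := Real.rpow_le_rpow (by positivity) h1 hp.le
      _ = Real.exp (r * x) := by
        rw [← Real.exp_mul]
        congr 1
        field_simp
  calc x ^ p = ((p / r) * (x * r / p)) ^ p := by congr 1; field_simp
    _ = (p / r) ^ p * (x * r / p) ^ p := Real.mul_rpow (by positivity) (by positivity)
    _ ≤ _ := mul_le_mul_of_nonneg_left h2 (by positivity)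

lemma one_add_pow_le (k : ℕ) {y : ℝ} (h0 : 0 ≤ y) (h1 : y ≤ 1) : (1 + y) ^ k ≤ 1 + (2 ^ k - 1) * y := by
  induction k with
  | zero => simp
  | succ k ih =>
    have h2 : (1:ℝ) ≤ 2 ^ k := one_le_pow₀ (by norm_num)
    calc (1 + y) ^ (k + 1) = (1 + y) ^ k * (1 + y) := pow_succ _ _
      _ ≤ (1 + (2 ^ k - 1) * y) * (1 + y) := mul_le_mul_of_nonneg_right ih (by linarith)
      _ ≤ _ := by
        have h3 : (2 ^ k - 1) * y * y ≤ (2 ^ k - 1) * y := by
          refine mul_le_of_le_one_right ?_ h1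
          exact mul_nonneg (by linarith) h0
        rw [pow_succ]
        nlinarith

lemma split_pow (k : ℕ) {x s d y : ℝ} (hx : 0 ≤ x) (hs : 0 ≤ s) (hd : 0 ≤ d) (hy : 0 < y) (h : x ≤ s + d) :
    x ^ k ≤ (1 + y) ^ k * s ^ k + (1 + 1 / y) ^ k * d ^ k := by
  have h1 : 0 ≤ (1 + y) ^ k * s ^ k := by positivity
  have h2 : 0 ≤ (1 + 1 / y) ^ k * d ^ k := by positivity
  rcases le_total d (y * s) with hc | hc
  · have : x ^ k ≤ ((1 + y) * s) ^ k := pow_le_pow_left₀ hx (by linarith) k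
    rw [mul_pow] at this
    linarith
  · have h3 : s ≤ 1 / y * d := by
      rw [one_div, le_inv_mul_iff₀ hy]; exact hc
    have : x ^ k ≤ ((1 + 1 / y) * d) ^ k := pow_le_pow_left₀ hx (by linarith) k
    rw [mul_pow] at this
    linarith

lemma int_split (k N : ℕ) {σ a H y : ℝ} (hσ : σ < 1) (hH : 0 ≤ H) (hy : 0 < y) :
    (∫ t in a..(a + H), zn σ t ^ k) ≤ (1 + y) ^ k * (∫ t in a..(a + H), Pp k N σ t) +
      (1 + 1 / y) ^ k * ∫ t in a..(a + H), Gk k N σ t ∧
    (∫ t in a..(a + H), Pp k N σ t) ≤ (1 + y) ^ k * (∫ t in a..(a + H), zn σ t ^ k) +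
      (1 + 1 / y) ^ k * ∫ t in a..(a + H), Gk k N σ t := by
  have cz : Continuous fun t : ℝ => zn σ t ^ k := (zn_cont hσ).pow k
  have cp := Pp_cont k N σ
  have cg := Gk_cont k N hσ
  have key : ∀ f g : ℝ → ℝ, Continuous f → Continuous g → (∀ t, f t ≤ (1 + y) ^ k * g t + (1 + 1 / y) ^ k * Gk k N σ t) →
      (∫ t in a..(a + H), f t) ≤ (1 + y) ^ k * (∫ t in a..(a + H), g t) +
      (1 + 1 / y) ^ k * ∫ t in a..(a + H), Gk k N σ t := by
    intro f g hf hg h
    have e : (1 + y) ^ k * (∫ t in a..(a + H), g t) + (1 + 1 / y) ^ k * (∫ t in a..(a + H), Gk k N σ t) =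
        ∫ t in a..(a + H), ((1 + y) ^ k * g t + (1 + 1 / y) ^ k * Gk k N σ t) := by
      rw [intervalIntegral.integral_add, intervalIntegral.integral_const_mul,
        intervalIntegral.integral_const_mul]
      · exact (continuous_const.mul hg).intervalIntegrable _ _
      · exact (continuous_const.mul cg).intervalIntegrable _ _
    rw [e]
    exact intervalIntegral.integral_mono_on (by linarith) (hf.intervalIntegrable _ _)
      (((continuous_const.mul hg).add (continuous_const.mul cg)).intervalIntegrable _ _) fun t _ => h t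
  constructor
  · refine key _ _ cz cp fun t => ?_
    unfold zn Pp Gk
    refine split_pow k (norm_nonneg _) (by positivity) (norm_nonneg _) hy ?_
    have := norm_add_le (DS (dv kh) N ((σ : ℂ) + t * Complex.I) ^ 2)
      (riemannZeta ((σ : ℂ) + t * Complex.I) - DS (dv kh) N ((σ : ℂ) + t * Complex.I) ^ 2)
    rw [add_sub_cancel, norm_pow] at this
    exact this
  · refine key _ _ cp cz fun t => ?_
    unfold zn Pp Gk
    refine split_pow k (by positivity) (norm_nonneg _) (norm_nonneg _) hy ?_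
    have := norm_sub_le (riemannZeta ((σ : ℂ) + t * Complex.I))
      (riemannZeta ((σ : ℂ) + t * Complex.I) - DS (dv kh) N ((σ : ℂ) + t * Complex.I) ^ 2)
    rw [sub_sub_cancel, norm_pow] at this
    exact this

/-- the asymptotic formula at the distance `δ / log T` -/
theorem main (k : ℕ) (hk : 1 ≤ k) {α β : ℝ} (hα : 0 ≤ α) (hαβ : α < β) (hUB : UB k β) :
    ∃ C c : ℝ, 0 < c ∧ 0 ≤ C ∧ ∀ ε : ℝ, 0 < ε → ∃ η : ℝ, 0 < η ∧ ∀ᶠ T : ℝ in atTop, ∀ δ : ℝ, 1 ≤ δ →
      δ ≤ η * Real.log T → ∀ a H : ℝ, Adm α T a H →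
      |(∫ t in a..(a + H), zn (1 / 2 + δ / Real.log T) t ^ k) -
        aF (k * kh) * (Real.log T / (2 * δ)) ^ ((k * kh) ^ 2) * H| ≤
        (C * Real.exp (-(c * δ)) + ε) * (aF (k * kh) * (Real.log T / (2 * δ)) ^ ((k * kh) ^ 2) * H) := by
  have hk0 : (0:ℝ) < k := by exact_mod_cast hk
  have hκ : 0 < (k:ℝ) * kh := by unfold kh; positivity
  obtain ⟨CD, hCD0, hD⟩ := D_bound k hk hα hαβ hUB
  have hF := FF_tendsto hκ
  have hA := aF_pos hκ
  set κ : ℝ := (k:ℝ) * kh with hκdef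
  set κ2 : ℝ := κ ^ 2 with hκ2
  have hκ20 : 0 < κ2 := by positivity
  set A := aF κ with hAdef
  set C3 : ℝ := (κ2 / (1 / 128)) ^ κ2 with hC3
  have hC30 : 0 ≤ C3 := by positivity
  set C5 : ℝ := 2 ^ k * (CD * C3 / A) with hC5
  have hC50 : 0 ≤ C5 := by positivity
  set C6 : ℝ := 3 * 2 ^ k + C5 with hC6
  have hC60 : 0 ≤ C6 := by positivity
  set C7 : ℝ := C6 + 4 * 2 ^ κ2 + 2 ^ k * (2 + C6) + C5 with hC7
  have hC70 : 0 ≤ C7 := by positivity
  refine ⟨C7, 1 / (64 * k), by positivity, hC70, fun ε hε => ?_⟩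
  obtain ⟨ε1, hε1⟩ : ∃ ε1 : ℝ, ε1 = min ε 1 / 8 := ⟨_, rfl⟩
  have hε10 : 0 < ε1 := by rw [hε1]; positivity
  have hε18 : ε1 ≤ 1 / 8 := by rw [hε1]; linarith [min_le_right ε 1]
  have hε1ε : 2 * ε1 ≤ ε := by rw [hε1]; linarith [min_le_left ε 1]
  have hup := hF.eventually_lt_const (show A < (1 + ε1) * A by nlinarith)
  have hlo := hF.eventually_const_lt (show (1 - ε1) * A < A by nlinarith)
  obtain ⟨L1, hL1⟩ := eventually_atTop.1 (hup.and hlo)
  set L2 : ℝ := max L1 8 with hL2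
  have hL20 : 8 ≤ L2 := le_max_right _ _
  refine ⟨1 / (2 * L2), by positivity, ?_⟩
  have hT6 : ∀ᶠ T : ℝ in atTop, 6 / (ε1 * A) ≤ T ^ ((3:ℝ) / 8) :=
    (tendsto_rpow_atTop (by norm_num)).eventually_ge_atTop _
  filter_upwards [hD, big_log, hT6, pow_le_H α] with T hDT h4 h5 h6 δ hδ hδT a H hAdm
  have hT1 : 1 < T := h4.1
  have hT0 : 0 < T := by linarith
  have hL0 : 0 < Real.log T := by linarith [h4.2]
  have hδ16 : δ ≤ Real.log T / 16 := by
    refine hδT.trans ?_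
    have : 1 / (2 * L2) ≤ 1 / 16 := by
      apply one_div_le_one_div_of_le (by norm_num); linarith
    nlinarith
  have hD' := hDT δ hδ hδ16 a H hAdm
  obtain ⟨hHT, hH1⟩ := h6 a H hAdm
  obtain ⟨ha, hH, haT, hTH⟩ := hAdm
  have hδ0 : 0 < δ := by linarith
  set Δ := δ / Real.log T with hΔ
  have hΔ0 : 0 < Δ := by positivity
  have hΔ1 : Δ ≤ 1 / 16 := by
    rw [hΔ, div_le_iff₀ hL0]; linarith
  set L := Real.log T / (2 * δ) with hL
  have hLL2 : L2 ≤ L := by
    rw [hL, le_div_iff₀ (by positivity)]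
    have h7 : δ * (2 * L2) ≤ (1 / (2 * L2) * Real.log T) * (2 * L2) :=
      mul_le_mul_of_nonneg_right hδT (by positivity)
    have h8 : (1 / (2 * L2) * Real.log T) * (2 * L2) = Real.log T := by
      field_simp
    linarith
  have hLpos : 0 < L := by linarith
  have hL1' : L1 ≤ L := (le_max_left _ _).trans hLL2
  have eL1 : 2 * Δ = 1 / L := by rw [hΔ, hL]; field_simp
  have eL2 : Δ = 1 / (2 * L) := by rw [hΔ, hL]; field_simp
  have elog : Real.log T = 2 * δ * L := by rw [hL]; field_simp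
  have hLκ : 1 ≤ L ^ κ2 := Real.one_le_rpow (by linarith) hκ20.le
  have hLκ0 : 0 < L ^ κ2 := by linarith
  obtain ⟨hu1, hl1⟩ := hL1 L hL1'
  obtain ⟨hu2, -⟩ := hL1 (2 * L) (by linarith)
  rw [div_lt_iff₀ hLκ0] at hu1
  rw [lt_div_iff₀ hLκ0] at hl1
  rw [div_lt_iff₀ (by positivity)] at hu2
  set X := A * L ^ κ2 with hX
  have hX0 : 0 < X := by positivity
  obtain ⟨hN1, -⟩ := NK_half k hk hT1.le
  have hN0 : (0:ℝ) < NK k T := by exact_mod_cast hN1
  -- the mean value `W`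
  have w1 : WW k (NK k T) (1 / 2 + Δ) ≤ (1 + ε1) * X := by
    refine (WW_le k hk (NK k T) hΔ0).trans ?_
    rw [eL1]
    calc FF κ (1 / L) ≤ (1 + ε1) * A * L ^ κ2 := hu1.le
      _ = _ := by rw [hX]; ring
  set q := Real.exp (-(δ / (8 * k))) with hq
  have w2 : (1 - ε1 - 4 * 2 ^ κ2 * q) * X ≤ WW k (NK k T) (1 / 2 + Δ) := by
    have g8 := WW_ge k hk hN1 hΔ0
    rw [← hκdef, eL1] at g8
    refine le_trans ?_ g8
    have g1 : ((NK k T : ℝ)) ^ (-Δ) ≤ 2 * q := by
      have g2 := NK_rpow k hk hT1 hδ0 (by linarith)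
      rw [← hΔ] at g2
      rw [Real.rpow_neg hN0.le]
      have g3 : 0 < Real.exp (δ / (8 * k)) / 2 := by positivity
      calc ((NK k T : ℝ) ^ Δ)⁻¹ ≤ (Real.exp (δ / (8 * k)) / 2)⁻¹ := inv_anti₀ g3 g2
        _ = 2 * q := by rw [hq, Real.exp_neg, inv_div]; ring
    have g4 : FF κ Δ ≤ 2 * A * (2 ^ κ2 * L ^ κ2) := by
      rw [eL2]
      calc FF κ (1 / (2 * L)) ≤ (1 + ε1) * A * (2 * L) ^ κ2 := hu2.le
        _ ≤ 2 * A * (2 * L) ^ κ2 := by
          have : 0 ≤ A * (2 * L) ^ κ2 := by positivity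
          nlinarith
        _ = _ := by rw [Real.mul_rpow (by norm_num) hLpos.le]
    have g5 : (NK k T : ℝ) ^ (-Δ) * FF κ Δ ≤ (2 * q) * (2 * A * (2 ^ κ2 * L ^ κ2)) :=
      mul_le_mul g1 g4 (FF_nonneg _ _) (by positivity)
    have g6 : (2 * q) * (2 * A * (2 ^ κ2 * L ^ κ2)) = 4 * 2 ^ κ2 * q * X := by rw [hX]; ring
    have g7 : (1 - ε1) * A * L ^ κ2 = (1 - ε1) * X := by rw [hX]; ring
    rw [g6] at g5
    rw [g7] at hl1
    have g9 : (1 - ε1 - 4 * 2 ^ κ2 * q) * X = (1 - ε1) * X - 4 * 2 ^ κ2 * q * X := by ring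
    rw [g9]
    exact sub_le_sub hl1.le g5
  -- the integral of `|P|^{2k}`
  have hmv := abs_le.mp (mv k hN1 (σ := 1 / 2 + Δ) (by linarith) a (a + H))
  rw [add_sub_cancel_left] at hmv
  have hsm : 6 * ((NK k T : ℝ) ^ k) ^ 4 ≤ ε1 * (X * H) := by
    have g1 : ((NK k T : ℝ) ^ k) ^ 4 ≤ T ^ ((1:ℝ) / 2) := by
      calc ((NK k T : ℝ) ^ k) ^ 4 ≤ (T ^ ((1:ℝ) / 8)) ^ 4 :=
            pow_le_pow_left₀ (by positivity) (NK_pow k hk hT1.le) 4
        _ = T ^ ((1:ℝ) / 2) := by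
            rw [← Real.rpow_natCast, ← Real.rpow_mul hT0.le]; norm_num
    have g2 : 6 * T ^ ((1:ℝ) / 2) ≤ ε1 * A * T ^ ((7:ℝ) / 8) := by
      rw [div_le_iff₀ (by positivity)] at h5
      have e : T ^ ((7:ℝ) / 8) = T ^ ((3:ℝ) / 8) * T ^ ((1:ℝ) / 2) := by
        rw [← Real.rpow_add hT0]; norm_num
      rw [e]
      have := Real.rpow_nonneg hT0.le ((1:ℝ) / 2)
      nlinarith
    have g3 : ε1 * A * T ^ ((7:ℝ) / 8) ≤ ε1 * (X * H) := by
      have : A * T ^ ((7:ℝ) / 8) ≤ X * H := by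
        rw [hX]
        calc A * T ^ ((7:ℝ) / 8) ≤ A * H := mul_le_mul_of_nonneg_left hHT hA.le
          _ = A * 1 * H := by ring
          _ ≤ A * L ^ κ2 * H := by gcongr
      rw [mul_assoc]
      exact mul_le_mul_of_nonneg_left this hε10.le
    linarith
  set S := ∫ t in a..(a + H), Pp k (NK k T) (1 / 2 + Δ) t with hS
  have s1 : S ≤ (1 + 2 * ε1) * (X * H) := by
    have := mul_le_mul_of_nonneg_left w1 hH.le
    linarith [hmv.2]
  have s2 : (1 - 2 * ε1 - 4 * 2 ^ κ2 * q) * (X * H) ≤ S := by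
    have := mul_le_mul_of_nonneg_left w2 hH.le
    linarith [hmv.1]
  -- the difference
  set y := Real.exp (-(1 / (64 * k) * δ)) with hy
  have hy0 : 0 < y := Real.exp_pos _
  have hy1 : y ≤ 1 := Real.exp_le_one_iff.2 (by
    have : 0 ≤ 1 / (64 * (k:ℝ)) * δ := by positivity
    linarith)
  have hk1 : (1:ℝ) ≤ k := by exact_mod_cast hk
  have hqy : q ≤ y := by
    rw [hq, hy, Real.exp_le_exp]
    have : 1 / (64 * (k:ℝ)) * δ ≤ δ / (8 * k) := by
      rw [one_div_mul_eq_div, div_le_div_iff₀ (by positivity) (by positivity)]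
      nlinarith
    linarith
  set D := ∫ t in a..(a + H), Gk k (NK k T) (1 / 2 + Δ) t with hDdef
  have hD0 : 0 ≤ D := intervalIntegral.integral_nonneg (by linarith) fun x _ => Gk_nonneg k _ _ x
  have hyk : (1 + 1 / y) ^ k ≤ 2 ^ k * Real.exp (δ / 64) := by
    have g1 : 1 + 1 / y ≤ 2 * (1 / y) := by
      have : 1 ≤ 1 / y := by rw [le_div_iff₀ hy0]; linarith
      linarith
    calc (1 + 1 / y) ^ k ≤ (2 * (1 / y)) ^ k := pow_le_pow_left₀ (by positivity) g1 k
      _ = 2 ^ k * Real.exp (δ / 64) := by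
        rw [mul_pow, one_div, hy, ← Real.exp_neg, neg_neg, ← Real.exp_nat_mul]
        congr 2
        field_simp
  have hDy : (1 + 1 / y) ^ k * D ≤ C5 * y * (X * H) := by
    have g1 : Real.log T ^ κ2 ≤ C3 * Real.exp (δ / 64) * L ^ κ2 := by
      rw [elog, Real.mul_rpow (by positivity) hLpos.le]
      refine mul_le_mul_of_nonneg_right ?_ hLκ0.le
      have := pow_exp (p := κ2) (r := 1 / 128) (x := 2 * δ) hκ20 (by norm_num) (by positivity)
      rw [show 1 / 128 * (2 * δ) = δ / 64 by ring] at this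
      exact this
    have g2 : D ≤ CD * Real.exp (-(δ / 16)) * (H * (C3 * Real.exp (δ / 64) * L ^ κ2)) := by
      refine hD'.trans (mul_le_mul_of_nonneg_left ?_ (by positivity))
      exact mul_le_mul_of_nonneg_left g1 hH.le
    have g3 : Real.exp (δ / 64) * (Real.exp (-(δ / 16)) * Real.exp (δ / 64)) ≤ y := by
      rw [← Real.exp_add, ← Real.exp_add, hy, Real.exp_le_exp]
      have : 1 / (64 * (k:ℝ)) * δ ≤ δ / 64 := by
        rw [one_div_mul_eq_div, div_le_div_iff₀ (by positivity) (by positivity)]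
        nlinarith
      linarith
    calc (1 + 1 / y) ^ k * D ≤ (2 ^ k * Real.exp (δ / 64)) *
          (CD * Real.exp (-(δ / 16)) * (H * (C3 * Real.exp (δ / 64) * L ^ κ2))) :=
          mul_le_mul hyk g2 hD0 (by positivity)
      _ = C5 * (Real.exp (δ / 64) * (Real.exp (-(δ / 16)) * Real.exp (δ / 64))) * (X * H) := by
          rw [hC5, hX]; field_simp
      _ ≤ C5 * y * (X * H) := by gcongr
  obtain ⟨m1, m2⟩ := int_split k (NK k T) (σ := 1 / 2 + Δ) (a := a) (H := H) (by linarith) hH.le hy0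
  rw [← hS, ← hDdef] at m1 m2
  set M := ∫ t in a..(a + H), zn (1 / 2 + Δ) t ^ k with hM
  have hM0 : 0 ≤ M := intervalIntegral.integral_nonneg (by linarith) fun x _ => pow_nonneg (zn_nonneg _ _) k
  have hS0 : 0 ≤ S := intervalIntegral.integral_nonneg (by linarith) fun x _ => Pp_nonneg k _ _ x
  have hXH : 0 < X * H := by positivity
  have hyk2 := one_add_pow_le k hy0.le hy1
  have h2k : (1:ℝ) ≤ 2 ^ k := one_le_pow₀ (by norm_num)
  have hyk3 : (1 + y) ^ k ≤ 1 + 2 ^ k * y := by linarith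
  have up : M ≤ (1 + 2 * ε1 + C6 * y) * (X * H) := by
    have g1 : (1 + y) ^ k * S ≤ (1 + 2 ^ k * y) * ((1 + 2 * ε1) * (X * H)) :=
      mul_le_mul hyk3 s1 hS0 (by positivity)
    have g2 : (1 + 2 ^ k * y) * ((1 + 2 * ε1) * (X * H)) ≤ (1 + 2 * ε1 + 3 * 2 ^ k * y) * (X * H) := by
      rw [← mul_assoc]
      refine mul_le_mul_of_nonneg_right ?_ hXH.le
      have : 0 ≤ 2 ^ k * y := by positivity
      nlinarith
    calc M ≤ (1 + 2 * ε1 + 3 * 2 ^ k * y) * (X * H) + C5 * y * (X * H) := by linarith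
      _ = _ := by rw [hC6]; ring
  have lo : (1 - 2 * ε1 - (4 * 2 ^ κ2 + 2 ^ k * (2 + C6) + C5) * y) * (X * H) ≤ M := by
    have g1 : (1 + y) ^ k * M ≤ M + 2 ^ k * y * M := by
      have := mul_le_mul_of_nonneg_right hyk3 hM0
      linarith
    have g2 : M ≤ (2 + C6) * (X * H) := by
      refine up.trans (mul_le_mul_of_nonneg_right ?_ hXH.le)
      have : C6 * y ≤ C6 := mul_le_of_le_one_right hC60 hy1
      linarith
    have g3 : 2 ^ k * y * M ≤ 2 ^ k * y * ((2 + C6) * (X * H)) := mul_le_mul_of_nonneg_left g2 (by positivity)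
    have g4 : 4 * 2 ^ κ2 * q * (X * H) ≤ 4 * 2 ^ κ2 * y * (X * H) := by gcongr
    linarith
  rw [abs_le]
  have e1 : C6 * y ≤ C7 * y := mul_le_mul_of_nonneg_right (by
    rw [hC7]
    have : 0 ≤ 4 * (2:ℝ) ^ κ2 + 2 ^ k * (2 + C6) + C5 := by positivity
    linarith) hy0.le
  have e2 : (4 * 2 ^ κ2 + 2 ^ k * (2 + C6) + C5) * y ≤ C7 * y :=
    mul_le_mul_of_nonneg_right (by rw [hC7]; linarith) hy0.le
  constructor
  · have : (1 - (C7 * y + ε)) * (X * H) ≤ M := le_trans (mul_le_mul_of_nonneg_right (by linarith) hXH.le) lo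
    linarith
  · have : M ≤ (1 + (C7 * y + ε)) * (X * H) := up.trans (mul_le_mul_of_nonneg_right (by linarith) hXH.le)
    linarith

end Pool.Agent.L7h16.ZA
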